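import Pool.Agent.Y80.KM.Defs2

set_option autoImplicit false

open scoped BigOperators

/-! The bracket of the Tits type algebra is bilinear, alternating and satisfies the Jacobi
identity (job TL of helper80). -/

namespace Pool.Agent.Y285.KM

open Pool.Agent.Y80.KM

section TL

variable {k A : Type*} [Field k] [CharZero k] [NonUnitalNonAssocRing A] [Module k A]
  [IsScalarTower k A A] [SMulCommClass k A A] {N : ℕ} [NeZero N] (T : TitsData k A N)

/-- traceless part -/
noncomputable def tl (k : Type*) {A : Type*} [Field k] [NonUnitalNonAssocRing A] [Module k A]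
    (N : ℕ) : Matrix (Fin N) (Fin N) A →ₗ[k] Matrix (Fin N) (Fin N) A where
  toFun X := X - Matrix.diagonal fun _ => (N : k)⁻¹ • X.trace
  map_add' X Y := by
    ext i j
    by_cases h : i = j
    · subst h
      simp only [Matrix.sub_apply, Matrix.add_apply, Matrix.diagonal_apply_eq, Matrix.trace_add,
        smul_add]
      abel
    · simp only [Matrix.sub_apply, Matrix.add_apply, Matrix.diagonal_apply_ne _ h]
      abel
  map_smul' c X := by
    ext i j
    by_cases h : i = j
    · subst h
      simp only [Matrix.sub_apply, Matrix.smul_apply, Matrix.diagonal_apply_eq, Matrix.trace_smul,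
        RingHom.id_apply, smul_sub, smul_comm c]
    · simp only [Matrix.sub_apply, Matrix.smul_apply, Matrix.diagonal_apply_ne _ h,
        RingHom.id_apply, sub_zero]

/-- the commutator -/
def cm (k : Type*) {A : Type*} [Field k] [NonUnitalNonAssocRing A] [Module k A]
    [IsScalarTower k A A] [SMulCommClass k A A] (N : ℕ) :
    Matrix (Fin N) (Fin N) A →ₗ[k] Matrix (Fin N) (Fin N) A →ₗ[k] Matrix (Fin N) (Fin N) A :=
  LinearMap.mk₂ k (fun M M' => M * M' - M' * M)
    (by intro M M' M''; rw [Matrix.add_mul, Matrix.mul_add]; abel)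
    (by intro c M M'; rw [Matrix.smul_mul, Matrix.mul_smul, smul_sub])
    (by intro M M' M''; rw [Matrix.add_mul, Matrix.mul_add]; abel)
    (by intro c M M'; rw [Matrix.smul_mul, Matrix.mul_smul, smul_sub])

/-- `cbr` as a bilinear map -/
noncomputable def cbrL (k : Type*) {A : Type*} [Field k] [NonUnitalNonAssocRing A] [Module k A]
    [IsScalarTower k A A] [SMulCommClass k A A] (N : ℕ) :
    Matrix (Fin N) (Fin N) A →ₗ[k] Matrix (Fin N) (Fin N) A →ₗ[k] Matrix (Fin N) (Fin N) A :=
  (cm k N).compr₂ (tl k N)

omit [CharZero k] [NeZero N] in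
theorem cbrL_apply (M M' : Matrix (Fin N) (Fin N) A) : cbrL k N M M' = cbr k M M' := rfl

/-- `(δ, M) ↦ M.map δ` as a bilinear map -/
def mapL (k A : Type*) [Field k] [NonUnitalNonAssocRing A] [Module k A] (N : ℕ) :
    (A →ₗ[k] A) →ₗ[k] Matrix (Fin N) (Fin N) A →ₗ[k] Matrix (Fin N) (Fin N) A :=
  LinearMap.mk₂ k (fun δ M => M.map δ)
    (by intro δ δ' M; ext i j; simp)
    (by intro c δ M; ext i j; simp)
    (by intro δ M M'; ext i j; simp)
    (by intro c δ M; ext i j; simp)

omit [CharZero k] [IsScalarTower k A A] [SMulCommClass k A A] [NeZero N] in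
theorem mapL_apply (δ : A →ₗ[k] A) (M : Matrix (Fin N) (Fin N) A) : mapL k A N δ M = M.map δ := rfl

/-- `tw` as a bilinear map -/
def twL (k A : Type*) [Field k] [NonUnitalNonAssocRing A] [Module k A] (N : ℕ) :
    Matrix (Fin N) (Fin N) A →ₗ[k] Matrix (Fin N) (Fin N) A →ₗ[k] BSp k A :=
  LinearMap.mk₂ k (fun M M' => tw k M M')
    (by
      intro M M' M''
      simp only [tw, Matrix.add_apply, map_add, LinearMap.add_apply, Finset.sum_add_distrib])
    (by
      intro c M M'
      simp only [tw, Matrix.smul_apply, map_smul, LinearMap.smul_apply, Finset.smul_sum])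
    (by
      intro M M' M''
      simp only [tw, Matrix.add_apply, map_add, Finset.sum_add_distrib])
    (by
      intro c M M'
      simp only [tw, Matrix.smul_apply, map_smul, Finset.smul_sum])

omit [CharZero k] [IsScalarTower k A A] [SMulCommClass k A A] [NeZero N] in
theorem twL_apply (M M' : Matrix (Fin N) (Fin N) A) : twL k A N M M' = tw k M M' := rfl

omit [IsScalarTower k A A] [SMulCommClass k A A] [NeZero N] in
theorem tw_swap (M M' : Matrix (Fin N) (Fin N) A) : tw k M M' = - tw k M' M := by
  rw [tw, tw, Finset.sum_comm, ← Finset.sum_neg_distrib]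
  refine Finset.sum_congr rfl fun i _ => ?_
  rw [← Finset.sum_neg_distrib]
  refine Finset.sum_congr rfl fun j _ => ?_
  rw [wedge_swap]

theorem mat_br' (x y : TLie T) : (TLie.br T x y).mat =
    cbrL k N x.mat y.mat + mapL k A N (T.Dact x.b) y.mat - mapL k A N (T.Dact y.b) x.mat := rfl

theorem b_br' (x y : TLie T) : (TLie.br T x y).b =
    T.c • twL k A N x.mat y.mat + T.Bact x.b y.b := rfl

theorem br_add_left (x y z : TLie T) : TLie.br T (x + y) z = TLie.br T x z + TLie.br T y z := by
  apply TLie.ext
  · simp only [mat_br', TLie.mat_add, TLie.b_add, map_add, LinearMap.add_apply]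
    abel
  · simp only [b_br', TLie.mat_add, TLie.b_add, map_add, LinearMap.add_apply, smul_add]
    abel

theorem br_add_right (x y z : TLie T) : TLie.br T x (y + z) = TLie.br T x y + TLie.br T x z := by
  apply TLie.ext
  · simp only [mat_br', TLie.mat_add, TLie.b_add, map_add, LinearMap.add_apply]
    abel
  · simp only [b_br', TLie.mat_add, TLie.b_add, map_add, smul_add]
    abel

theorem br_smul_left (c : k) (x y : TLie T) : TLie.br T (c • x) y = c • TLie.br T x y := by
  apply TLie.ext
  · simp only [mat_br', TLie.mat_smul, TLie.b_smul, map_smul, LinearMap.smul_apply, smul_add,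
      smul_sub]
  · simp only [b_br', TLie.mat_smul, TLie.b_smul, map_smul, LinearMap.smul_apply, smul_add,
      smul_comm c]

theorem br_smul_right (c : k) (x y : TLie T) : TLie.br T x (c • y) = c • TLie.br T x y := by
  apply TLie.ext
  · simp only [mat_br', TLie.mat_smul, TLie.b_smul, map_smul, LinearMap.smul_apply, smul_add,
      smul_sub]
  · simp only [b_br', TLie.mat_smul, TLie.b_smul, map_smul, smul_add, smul_comm c]

omit [CharZero k] [IsScalarTower k A A] [SMulCommClass k A A] [NeZero N] in
theorem Bact_swap (b b' : BSp k A) : T.Bact b b' = - T.Bact b' b := by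
  have h : T.Bact = - T.Bact.flip := by
    apply bSp_ext
    intro a b
    apply bSp_ext
    intro x y
    rw [LinearMap.neg_apply, LinearMap.neg_apply, LinearMap.flip_apply, TitsData.Bact_wedge,
      TitsData.Bact_wedge, TitsData.Dact_wedge, TitsData.Dact_wedge, eq_neg_iff_add_eq_zero]
    exact T.D_skew a b x y
  have := congrArg (fun f => f b b') h
  simpa using this

theorem neg_self_eq {V : Type*} [AddCommGroup V] [Module k V] {v : V} (h : v = - v) : v = 0 := by
  have h2 : (2 : k) • v = 0 := by
    rw [two_smul]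
    nth_rewrite 2 [h]
    exact add_neg_cancel v
  exact (smul_eq_zero.mp h2).resolve_left two_ne_zero

theorem br_self (x : TLie T) : TLie.br T x x = 0 := by
  apply TLie.ext
  · rw [mat_br', cbrL_apply, cbr]
    simp
  · rw [b_br', twL_apply, neg_self_eq (k := k) (tw_swap x.mat x.mat),
      neg_self_eq (k := k) (Bact_swap T x.b x.b)]
    simp

omit [CharZero k] [NeZero N] in
/-- derivations act on `cbr` by derivations -/
theorem map_cbr (δ : A →ₗ[k] A) (hδ : ∀ x y, δ (x * y) = δ x * y + x * δ y)
    (M M' : Matrix (Fin N) (Fin N) A) :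
    (cbr k M M').map δ = cbr k (M.map δ) M' + cbr k M (M'.map δ) := by
  have h1 : ∀ X Y : Matrix (Fin N) (Fin N) A, (X * Y).map δ = X.map δ * Y + X * Y.map δ := by
    intro X Y
    ext i j
    simp only [Matrix.map_apply, Matrix.mul_apply, Matrix.add_apply, map_sum, hδ,
      Finset.sum_add_distrib]
  have h2 : ∀ X : Matrix (Fin N) (Fin N) A, (tl k N X).map δ = tl k N (X.map δ) := by
    intro X
    ext i j
    simp only [tl, LinearMap.coe_mk, AddHom.coe_mk, Matrix.map_apply, Matrix.sub_apply, map_sub]
    congr 1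
    by_cases h : i = j
    · subst h
      rw [Matrix.diagonal_apply_eq, Matrix.diagonal_apply_eq, map_smul, trace_map_linear]
    · rw [Matrix.diagonal_apply_ne _ h, Matrix.diagonal_apply_ne _ h, map_zero]
  have h3 : cbr k M M' = tl k N (M * M' - M' * M) := rfl
  have h4 : (M * M' - M' * M).map δ =
      (M.map δ * M' - M' * M.map δ) + (M * M'.map δ - M'.map δ * M) := by
    have : (M * M' - M' * M).map δ = (M * M').map δ - (M' * M).map δ := by
      ext i j; simp
    rw [this, h1, h1]
    abel
  rw [h3, h2, h4, map_add]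
  rfl

omit [CharZero k] [IsScalarTower k A A] [SMulCommClass k A A] [NeZero N] in
theorem map_Dact_tw (M M' M'' : Matrix (Fin N) (Fin N) A) :
    M''.map (T.Dact (tw k M M')) = ∑ i, ∑ j, M''.map (T.D (M i j) (M' j i)) := by
  ext p q
  simp only [tw, map_sum, Matrix.map_apply, LinearMap.sum_apply, Matrix.sum_apply,
    TitsData.Dact_wedge]

omit [IsScalarTower k A A] [SMulCommClass k A A] [NeZero N] [CharZero k] in
theorem tw_mul_cyc (M M' M'' : Matrix (Fin N) (Fin N) A) :
    tw k (M * M') M'' + tw k (M' * M'') M + tw k (M'' * M) M' = 0 := by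
  have e1 : tw k (M * M') M'' = ∑ i, ∑ j, ∑ l, wedge k A (M i j * M' j l) (M'' l i) := by
    simp only [tw, Matrix.mul_apply, map_sum, LinearMap.sum_apply]
    refine Finset.sum_congr rfl fun i _ => ?_
    rw [Finset.sum_comm]
  have e2 : tw k (M' * M'') M = ∑ i, ∑ j, ∑ l, wedge k A (M' j l * M'' l i) (M i j) := by
    simp only [tw, Matrix.mul_apply, map_sum, LinearMap.sum_apply]
    rw [Finset.sum_comm]
  have e3 : tw k (M'' * M) M' = ∑ i, ∑ j, ∑ l, wedge k A (M'' l i * M i j) (M' j l) := by
    simp only [tw, Matrix.mul_apply, map_sum, LinearMap.sum_apply]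
    rw [Finset.sum_comm]
    conv_lhs =>
      enter [2, j]
      rw [Finset.sum_comm]
    rw [Finset.sum_comm]
  rw [e1, e2, e3, ← Finset.sum_add_distrib, ← Finset.sum_add_distrib]
  refine Finset.sum_eq_zero fun i _ => ?_
  rw [← Finset.sum_add_distrib, ← Finset.sum_add_distrib]
  refine Finset.sum_eq_zero fun j _ => ?_
  rw [← Finset.sum_add_distrib, ← Finset.sum_add_distrib]
  refine Finset.sum_eq_zero fun l _ => ?_
  exact wedge_cyc k A _ _ _

omit [CharZero k] [IsScalarTower k A A] [SMulCommClass k A A] [NeZero N] in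
theorem tw_diag (M : Matrix (Fin N) (Fin N) A) (h : M.trace = 0) (a : A) :
    tw k (Matrix.diagonal fun _ => a) M = 0 := by
  have : tw k (Matrix.diagonal fun _ => a) M = wedge k A a M.trace := by
    rw [tw, Matrix.trace, map_sum]
    refine Finset.sum_congr rfl fun i _ => ?_
    rw [Finset.sum_eq_single i]
    · rw [Matrix.diagonal_apply_eq, Matrix.diag_apply]
    · intro j _ hj
      rw [Matrix.diagonal_apply_ne _ (Ne.symm hj), map_zero, LinearMap.zero_apply]
    · intro h; exact absurd (Finset.mem_univ i) h
  rw [this, h, map_zero]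

omit [CharZero k] [NeZero N] in
theorem tw_cbr (M M' M'' : Matrix (Fin N) (Fin N) A) (h'' : M''.trace = 0) :
    tw k (cbr k M M') M'' = tw k (M * M') M'' - tw k (M' * M) M'' := by
  have : cbr k M M' = M * M' - M' * M - Matrix.diagonal fun _ => (N : k)⁻¹ •
    (M * M' - M' * M).trace := rfl
  rw [this]
  have e := tw_diag (k := k) M'' h'' ((N : k)⁻¹ • (M * M' - M' * M).trace)
  simp only [← twL_apply] at e ⊢
  rw [map_sub, map_sub, LinearMap.sub_apply, LinearMap.sub_apply, e, sub_zero]

omit [CharZero k] [NeZero N] in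
theorem tw_cbr_cyc (M M' M'' : Matrix (Fin N) (Fin N) A) (h : M.trace = 0) (h' : M'.trace = 0)
    (h'' : M''.trace = 0) :
    tw k (cbr k M M') M'' + tw k (cbr k M' M'') M + tw k (cbr k M'' M) M' = 0 := by
  rw [tw_cbr M M' M'' h'', tw_cbr M' M'' M h, tw_cbr M'' M M' h']
  have e1 := tw_mul_cyc (k := k) M M' M''
  have e2 := tw_mul_cyc (k := k) M' M M''
  calc _ = (tw k (M * M') M'' + tw k (M' * M'') M + tw k (M'' * M) M') -
      (tw k (M' * M) M'' + tw k (M * M'') M' + tw k (M'' * M') M) := by abel
    _ = 0 := by rw [e1, e2, sub_zero]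

omit [CharZero k] [IsScalarTower k A A] [SMulCommClass k A A] [NeZero N] in
theorem Bact_tw (b : BSp k A) (M M' : Matrix (Fin N) (Fin N) A) :
    T.Bact b (tw k M M') = tw k (M.map (T.Dact b)) M' + tw k M (M'.map (T.Dact b)) := by
  simp only [tw, map_sum, TitsData.Bact_wedge, Matrix.map_apply, Finset.sum_add_distrib]

/-- naturality of `D`: derivations of the form `D_{a,b}` act on the family `D` -/
def Nat' (T : TitsData k A N) : Prop :=
  ∀ a b x y z, T.D a b (T.D x y z) = T.D (T.D a b x) y z + T.D x (T.D a b y) z +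
    T.D x y (T.D a b z)

omit [CharZero k] [IsScalarTower k A A] [SMulCommClass k A A] [NeZero N] in
theorem Dact_Bact (hnat : ∀ a b x y z, T.D a b (T.D x y z) = T.D (T.D a b x) y z +
    T.D x (T.D a b y) z + T.D x y (T.D a b z)) (b b' : BSp k A) (z : A) :
    T.Dact (T.Bact b b') z = T.Dact b (T.Dact b' z) - T.Dact b' (T.Dact b z) := by
  have key : T.Bact.compr₂ T.Dact =
      LinearMap.mk₂ k (fun b b' => T.Dact b ∘ₗ T.Dact b' - T.Dact b' ∘ₗ T.Dact b)
        (by intro b b' b''; ext z; simp; abel)
        (by intro c b b'; ext z; simp [smul_sub])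
        (by intro b b' b''; ext z; simp; abel)
        (by intro c b b'; ext z; simp [smul_sub]) := by
    apply bSp_ext
    intro a b
    apply bSp_ext
    intro x y
    ext z
    simp only [LinearMap.compr₂_apply, TitsData.Bact_wedge, TitsData.Dact_wedge, map_add,
      LinearMap.add_apply, LinearMap.mk₂_apply, LinearMap.sub_apply, LinearMap.comp_apply]
    rw [hnat a b x y z]
    abel
  have := congrArg (fun f => f b b' z) key
  simpa using this

theorem jac' (M M' M'' : Matrix (Fin N) (Fin N) A) (h : M.trace = 0) (h' : M'.trace = 0)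
    (h'' : M''.trace = 0) :
    (cbr k (cbr k M M') M'' + cbr k (cbr k M' M'') M + cbr k (cbr k M'' M) M') +
      T.c • (M''.map (T.Dact (tw k M M')) + M.map (T.Dact (tw k M' M'')) +
        M'.map (T.Dact (tw k M'' M))) = 0 := by
  rw [map_Dact_tw, map_Dact_tw, map_Dact_tw]
  exact T.jacobi M M' M'' h h' h''

/-- the Jacobi identity -/
theorem br_jacobi (hnat : ∀ a b x y z, T.D a b (T.D x y z) = T.D (T.D a b x) y z +
    T.D x (T.D a b y) z + T.D x y (T.D a b z)) (x y z : TLie T) :
    TLie.br T x (TLie.br T y z) =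
    TLie.br T (TLie.br T x y) z + TLie.br T y (TLie.br T x z) := by
  have anti : ∀ M M' : Matrix (Fin N) (Fin N) A, cbrL k N M M' = - cbrL k N M' M := by
    intro M M'
    have h3 : ∀ X Y : Matrix (Fin N) (Fin N) A, cbrL k N X Y = tl k N (X * Y - Y * X) :=
      fun _ _ => rfl
    rw [h3, h3, ← map_neg]
    congr 1
    abel
  have tanti : ∀ M M' : Matrix (Fin N) (Fin N) A, twL k A N M M' = - twL k A N M' M :=
    fun M M' => tw_swap M M'
  have banti : ∀ b b' : BSp k A, T.Bact b b' = - T.Bact b' b := Bact_swap T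
  have der : ∀ (b : BSp k A) (M M' : Matrix (Fin N) (Fin N) A),
      mapL k A N (T.Dact b) (cbrL k N M M') = cbrL k N (mapL k A N (T.Dact b) M) M' +
        cbrL k N M (mapL k A N (T.Dact b) M') :=
    fun b M M' => map_cbr (T.Dact b) (T.Dact_mul b) M M'
  have com : ∀ (b b' : BSp k A) (M : Matrix (Fin N) (Fin N) A),
      mapL k A N (T.Dact (T.Bact b b')) M =
        mapL k A N (T.Dact b) (mapL k A N (T.Dact b') M) -
        mapL k A N (T.Dact b') (mapL k A N (T.Dact b) M) := by
    intro b b' M
    ext i j
    exact Dact_Bact T hnat b b' (M i j)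
  have btw : ∀ (b : BSp k A) (M M' : Matrix (Fin N) (Fin N) A),
      T.Bact b (twL k A N M M') = twL k A N (mapL k A N (T.Dact b) M) M' +
        twL k A N M (mapL k A N (T.Dact b) M') :=
    fun b M M' => Bact_tw T b M M'
  have bcom : ∀ b b' b'' : BSp k A, T.Bact (T.Bact b b') b'' =
      T.Bact b (T.Bact b' b'') - T.Bact b' (T.Bact b b'') := by
    intro b b' b''
    have : T.Bact (T.Bact b b') = T.Bact b ∘ₗ T.Bact b' - T.Bact b' ∘ₗ T.Bact b := by
      apply bSp_ext
      intro u v
      simp only [LinearMap.sub_apply, LinearMap.comp_apply, TitsData.Bact_wedge, map_add,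
        Dact_Bact T hnat, map_sub]
      abel
    rw [this]
    rfl
  have hj := jac' T x.mat y.mat z.mat x.trace_mat y.trace_mat z.trace_mat
  have ht := tw_cbr_cyc (k := k) x.mat y.mat z.mat x.trace_mat y.trace_mat z.trace_mat
  simp only [← cbrL_apply, ← twL_apply, ← mapL_apply] at hj ht
  apply TLie.ext
  · simp only [mat_br', b_br', TLie.mat_add, map_add, map_sub, map_smul, LinearMap.add_apply,
      LinearMap.sub_apply, LinearMap.smul_apply, der, com]
    rw [anti (cbrL k N y.mat z.mat) x.mat, anti (cbrL k N z.mat x.mat) y.mat,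
      anti z.mat x.mat] at hj
    rw [tanti z.mat x.mat] at hj
    rw [anti (mapL k A N (T.Dact z.b) x.mat) y.mat]
    simp only [map_neg, neg_neg, LinearMap.neg_apply] at hj
    linear_combination (norm := module) (-1 : k) • hj
  · simp only [mat_br', b_br', TLie.b_add, map_add, map_sub, map_smul, LinearMap.add_apply,
      LinearMap.sub_apply, LinearMap.smul_apply, btw, bcom]
    rw [tanti (cbrL k N y.mat z.mat) x.mat, tanti (cbrL k N z.mat x.mat) y.mat,
      anti z.mat x.mat] at ht
    rw [banti (twL k A N x.mat y.mat) z.b, btw,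
      tanti (mapL k A N (T.Dact z.b) x.mat) y.mat]
    simp only [map_neg, neg_neg] at ht
    linear_combination (norm := module) (-T.c) • ht

omit [CharZero k] [NeZero N] in
theorem map_single' (δ : A →ₗ[k] A) (i j : Fin N) (x : A) :
    (Matrix.single i j x).map δ = Matrix.single i j (δ x) := by
  ext p q
  simp only [Matrix.map_apply, Matrix.single_apply]
  split_ifs <;> simp

/-- if `c ≠ 0` and `N ≥ 2` then the derivations `D_{a,b}` act on the family `D` -/
theorem nat_of (hc : T.c ≠ 0) (hN : 2 ≤ N) (a b x y z : A) :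
    T.D a b (T.D x y z) = T.D (T.D a b x) y z +
    T.D x (T.D a b y) z + T.D x y (T.D a b z) := by
  obtain ⟨i, j, hij⟩ : ∃ i j : Fin N, i ≠ j :=
    ⟨⟨0, by omega⟩, ⟨1, by omega⟩, by intro h; simpa using congrArg Fin.val h⟩
  set P : A → A → A → Matrix (Fin N) (Fin N) A := fun x y z =>
    cbr k (cbr k (Matrix.single i j x) (Matrix.single j i y))
        (Matrix.single i i z - Matrix.single j j z) +
      cbr k (cbr k (Matrix.single j i y) (Matrix.single i i z - Matrix.single j j z))
        (Matrix.single i j x) +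
      cbr k (cbr k (Matrix.single i i z - Matrix.single j j z) (Matrix.single i j x))
        (Matrix.single j i y) with hP
  have hPD : ∀ (δ : A →ₗ[k] A) (_ : ∀ x y, δ (x * y) = δ x * y + x * δ y) (x y z : A),
      (P x y z).map δ = P (δ x) y z + P x (δ y) z + P x y (δ z) := by
    intro δ hδ x y z
    have hadd : ∀ X Y : Matrix (Fin N) (Fin N) A, (X + Y).map δ = X.map δ + Y.map δ := by
      intro X Y; ext p q; simp
    have hsub : ∀ X Y : Matrix (Fin N) (Fin N) A, (X - Y).map δ = X.map δ - Y.map δ := by
      intro X Y; ext p q; simp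
    simp only [hP, hadd, map_cbr δ hδ, hsub, map_single']
    simp only [← cbrL_apply, map_add, LinearMap.add_apply]
    abel
  have hz : ∀ x y z : A, P x y z +
      T.c • (Matrix.single i i z - Matrix.single j j z).map (T.D x y) = 0 := by
    intro x y z
    have t1 : (Matrix.single i j x : Matrix (Fin N) (Fin N) A).trace = 0 :=
      Matrix.trace_single_eq_of_ne i j x hij
    have t2 : (Matrix.single j i y : Matrix (Fin N) (Fin N) A).trace = 0 :=
      Matrix.trace_single_eq_of_ne j i y hij.symm
    have t3 : (Matrix.single i i z - Matrix.single j j z : Matrix (Fin N) (Fin N) A).trace = 0 := by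
      rw [Matrix.trace_sub, Matrix.trace_single_eq_same, Matrix.trace_single_eq_same, sub_self]
    have h := jac' T _ _ _ t1 t2 t3
    have w1 : tw k (Matrix.single i j x) (Matrix.single j i y : Matrix (Fin N) (Fin N) A) =
        wedge k A x y := by
      rw [tw, Finset.sum_eq_single i, Finset.sum_eq_single j]
      · simp
      · intro q _ hq
        simp [Ne.symm hq]
      · simp
      · intro q _ hq
        refine Finset.sum_eq_zero fun r _ => ?_
        simp [Ne.symm hq]
      · simp
    have w2 : tw k (Matrix.single j i y : Matrix (Fin N) (Fin N) A)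
        (Matrix.single i i z - Matrix.single j j z) = 0 := by
      rw [tw]
      refine Finset.sum_eq_zero fun q _ => Finset.sum_eq_zero fun r _ => ?_
      by_cases hq : j = q
      · by_cases hr : i = r
        · subst hq hr
          simp [Matrix.single_apply, hij, hij.symm]
        · simp [Matrix.single_apply, hr]
      · simp [Matrix.single_apply, hq]
    have w3 : tw k (Matrix.single i i z - Matrix.single j j z : Matrix (Fin N) (Fin N) A)
        (Matrix.single i j x) = 0 := by
      rw [tw]
      refine Finset.sum_eq_zero fun q _ => Finset.sum_eq_zero fun r _ => ?_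
      by_cases hq : j = q
      · by_cases hr : i = r
        · subst hq hr
          simp [Matrix.single_apply, hij, hij.symm]
        · simp [Matrix.single_apply, hr]
      · simp [Matrix.single_apply, hq]
    rw [w1, w2, w3] at h
    simpa [hP] using h
  have hD : ∀ x y z : A, (P x y z) i i + T.c • T.D x y z = 0 := by
    intro x y z
    have h := congrFun (congrFun (hz x y z) i) i
    simpa [Matrix.single_apply, hij, hij.symm] using h
  have e := congrFun (congrFun (hPD (T.D a b) (T.D_mul a b) x y z) i) i
  simp only [Matrix.map_apply, Matrix.add_apply] at e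
  have e0 : ∀ x y z : A, (P x y z) i i = - (T.c • T.D x y z) :=
    fun x y z => eq_neg_of_add_eq_zero_left (hD x y z)
  rw [e0, e0, e0, e0, map_neg, map_smul] at e
  have e' : T.c • T.D a b (T.D x y z) = T.c • (T.D (T.D a b x) y z +
    T.D x (T.D a b y) z + T.D x y (T.D a b z)) := by
    rw [smul_add, smul_add]
    linear_combination (norm := module) (-1 : k) • e
  exact smul_right_injective A hc e'

/-- the Jacobi identity for `c ≠ 0` and `N ≥ 2` -/
theorem br_jacobi' (hc : T.c ≠ 0) (hN : 2 ≤ N) (x y z : TLie T) :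
    TLie.br T x (TLie.br T y z) =
    TLie.br T (TLie.br T x y) z + TLie.br T y (TLie.br T x z) :=
  br_jacobi T (nat_of T hc hN) x y z

/-! ### the action of `gl_N` -/

/-- `scomm` as a bilinear map -/
def scommL (k A : Type*) [Field k] [NonUnitalNonAssocRing A] [Module k A] (N : ℕ) :
    Matrix (Fin N) (Fin N) k →ₗ[k] Matrix (Fin N) (Fin N) A →ₗ[k] Matrix (Fin N) (Fin N) A :=
  LinearMap.mk₂ k (fun X M => scomm X M)
    (by
      intro X Y M; ext i j
      simp only [scomm, Matrix.of_apply, Matrix.add_apply, add_smul, Finset.sum_add_distrib]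
      abel)
    (by
      intro c X M; ext i j
      simp only [scomm, Matrix.of_apply, Matrix.smul_apply, smul_assoc, Finset.smul_sum, smul_sub])
    (by
      intro X M M'; ext i j
      simp only [scomm, Matrix.of_apply, Matrix.add_apply, smul_add, Finset.sum_add_distrib]
      abel)
    (by
      intro c X M; ext i j
      simp only [scomm, Matrix.of_apply, Matrix.smul_apply, Finset.smul_sum, smul_sub,
        smul_comm c])

omit [CharZero k] [IsScalarTower k A A] [SMulCommClass k A A] [NeZero N] in
theorem scommL_apply (X : Matrix (Fin N) (Fin N) k) (M : Matrix (Fin N) (Fin N) A) :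
    scommL k A N X M = scomm X M := rfl

theorem glAct_add (X Y : Matrix (Fin N) (Fin N) k) : glAct T (X + Y) = glAct T X + glAct T Y := by
  ext x
  apply TLie.ext
  · simp only [mat_glAct, LinearMap.add_apply, TLie.mat_add, ← scommL_apply, map_add]
  · simp

theorem glAct_smul (c : k) (X : Matrix (Fin N) (Fin N) k) : glAct T (c • X) = c • glAct T X := by
  ext x
  apply TLie.ext
  · simp only [mat_glAct, LinearMap.smul_apply, TLie.mat_smul, ← scommL_apply, map_smul]
  · simp

theorem glAct_one : glAct T (1 : Matrix (Fin N) (Fin N) k) = 0 := by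
  ext x
  apply TLie.ext
  · rw [mat_glAct]
    ext i j
    simp only [scomm, Matrix.of_apply, Matrix.one_apply, ite_smul, one_smul, zero_smul,
      Finset.sum_ite_eq, Finset.sum_ite_eq', Finset.mem_univ, if_true, sub_self]
    simp
  · simp

/-- left multiplication by a scalar matrix -/
def lmL (k A : Type*) [Field k] [NonUnitalNonAssocRing A] [Module k A] (N : ℕ) :
    Matrix (Fin N) (Fin N) k →ₗ[k] Matrix (Fin N) (Fin N) A →ₗ[k] Matrix (Fin N) (Fin N) A :=
  LinearMap.mk₂ k (fun X M => Matrix.of fun i j => ∑ l, X i l • M l j)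
    (by
      intro X Y M; ext i j
      simp only [Matrix.of_apply, Matrix.add_apply, add_smul, Finset.sum_add_distrib])
    (by
      intro c X M; ext i j
      simp only [Matrix.of_apply, Matrix.smul_apply, smul_assoc, Finset.smul_sum])
    (by
      intro X M M'; ext i j
      simp only [Matrix.of_apply, Matrix.add_apply, smul_add, Finset.sum_add_distrib])
    (by
      intro c X M; ext i j
      simp only [Matrix.of_apply, Matrix.smul_apply, Finset.smul_sum, smul_comm c])

/-- right multiplication by a scalar matrix -/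
def rmL (k A : Type*) [Field k] [NonUnitalNonAssocRing A] [Module k A] (N : ℕ) :
    Matrix (Fin N) (Fin N) k →ₗ[k] Matrix (Fin N) (Fin N) A →ₗ[k] Matrix (Fin N) (Fin N) A :=
  LinearMap.mk₂ k (fun X M => Matrix.of fun i j => ∑ l, X l j • M i l)
    (by
      intro X Y M; ext i j
      simp only [Matrix.of_apply, Matrix.add_apply, add_smul, Finset.sum_add_distrib])
    (by
      intro c X M; ext i j
      simp only [Matrix.of_apply, Matrix.smul_apply, smul_assoc, Finset.smul_sum])
    (by
      intro X M M'; ext i j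
      simp only [Matrix.of_apply, Matrix.add_apply, smul_add, Finset.sum_add_distrib])
    (by
      intro c X M; ext i j
      simp only [Matrix.of_apply, Matrix.smul_apply, Finset.smul_sum, smul_comm c])

omit [CharZero k] [IsScalarTower k A A] [SMulCommClass k A A] [NeZero N] in
theorem lmL_apply (X : Matrix (Fin N) (Fin N) k) (M : Matrix (Fin N) (Fin N) A) (i j : Fin N) :
    lmL k A N X M i j = ∑ l, X i l • M l j := rfl

omit [CharZero k] [IsScalarTower k A A] [SMulCommClass k A A] [NeZero N] in
theorem rmL_apply (X : Matrix (Fin N) (Fin N) k) (M : Matrix (Fin N) (Fin N) A) (i j : Fin N) :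
    rmL k A N X M i j = ∑ l, X l j • M i l := rfl

omit [CharZero k] [IsScalarTower k A A] [SMulCommClass k A A] [NeZero N] in
theorem scomm_eq (X : Matrix (Fin N) (Fin N) k) (M : Matrix (Fin N) (Fin N) A) :
    scomm X M = lmL k A N X M - rmL k A N X M := rfl

omit [CharZero k] [IsScalarTower k A A] [SMulCommClass k A A] [NeZero N] in
theorem lmL_mul (X Y : Matrix (Fin N) (Fin N) k) (M : Matrix (Fin N) (Fin N) A) :
    lmL k A N (X * Y) M = lmL k A N X (lmL k A N Y M) := by
  ext i j
  simp only [lmL_apply, Matrix.mul_apply, Finset.sum_smul, Finset.smul_sum, smul_smul]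
  exact Finset.sum_comm

omit [CharZero k] [IsScalarTower k A A] [SMulCommClass k A A] [NeZero N] in
theorem rmL_mul (X Y : Matrix (Fin N) (Fin N) k) (M : Matrix (Fin N) (Fin N) A) :
    rmL k A N (X * Y) M = rmL k A N Y (rmL k A N X M) := by
  ext i j
  simp only [rmL_apply, Matrix.mul_apply, Finset.sum_smul, Finset.smul_sum, smul_smul]
  rw [Finset.sum_comm]
  refine Finset.sum_congr rfl fun l _ => Finset.sum_congr rfl fun m _ => ?_
  rw [mul_comm]

omit [CharZero k] [IsScalarTower k A A] [SMulCommClass k A A] [NeZero N] in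
theorem lr_comm (X Y : Matrix (Fin N) (Fin N) k) (M : Matrix (Fin N) (Fin N) A) :
    lmL k A N X (rmL k A N Y M) = rmL k A N Y (lmL k A N X M) := by
  ext i j
  simp only [rmL_apply, lmL_apply, Finset.smul_sum, smul_smul]
  rw [Finset.sum_comm]
  refine Finset.sum_congr rfl fun l _ => Finset.sum_congr rfl fun m _ => ?_
  rw [mul_comm]

theorem glAct_comm (X Y : Matrix (Fin N) (Fin N) k) :
    glAct T (X * Y - Y * X) = glAct T X ∘ₗ glAct T Y - glAct T Y ∘ₗ glAct T X := by
  ext x
  apply TLie.ext
  · simp only [mat_glAct, LinearMap.sub_apply, LinearMap.comp_apply, TLie.mat_sub, scomm_eq,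
      map_sub, lmL_mul, rmL_mul, lr_comm]
    abel
  · simp

omit [CharZero k] [NeZero N] in
theorem lm_mul (X : Matrix (Fin N) (Fin N) k) (M M' : Matrix (Fin N) (Fin N) A) :
    lmL k A N X (M * M') = lmL k A N X M * M' := by
  ext i j
  simp only [lmL_apply, Matrix.mul_apply, Finset.smul_sum, Finset.sum_mul, smul_mul_assoc]
  exact Finset.sum_comm

omit [CharZero k] [NeZero N] in
theorem rm_mul (X : Matrix (Fin N) (Fin N) k) (M M' : Matrix (Fin N) (Fin N) A) :
    rmL k A N X (M * M') = M * rmL k A N X M' := by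
  ext i j
  simp only [rmL_apply, Matrix.mul_apply, Finset.smul_sum, Finset.mul_sum, mul_smul_comm]
  exact Finset.sum_comm

omit [CharZero k] [NeZero N] in
theorem rl_mul (X : Matrix (Fin N) (Fin N) k) (M M' : Matrix (Fin N) (Fin N) A) :
    rmL k A N X M * M' = M * lmL k A N X M' := by
  ext i j
  simp only [rmL_apply, lmL_apply, Matrix.mul_apply, Finset.mul_sum, Finset.sum_mul,
    smul_mul_assoc, mul_smul_comm]
  exact Finset.sum_comm

omit [CharZero k] [IsScalarTower k A A] [SMulCommClass k A A] [NeZero N] in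
theorem scomm_tl (X : Matrix (Fin N) (Fin N) k) (Y : Matrix (Fin N) (Fin N) A) :
    scomm X (tl k N Y) = scomm X Y := by
  have hd : ∀ a : A, scomm X (Matrix.diagonal fun _ : Fin N => a) = 0 := by
    intro a
    ext i j
    simp only [scomm, Matrix.of_apply, Matrix.diagonal_apply, smul_ite, smul_zero,
      Finset.sum_ite_eq, Finset.sum_ite_eq', Finset.mem_univ, if_true, sub_self]
    rfl
  have : tl k N Y = Y - Matrix.diagonal fun _ => (N : k)⁻¹ • Y.trace := rfl
  rw [this, ← scommL_apply, map_sub, scommL_apply, scommL_apply, hd, sub_zero]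

omit [CharZero k] [IsScalarTower k A A] [SMulCommClass k A A] [NeZero N] in
theorem tl_scomm (X : Matrix (Fin N) (Fin N) k) (Y : Matrix (Fin N) (Fin N) A) :
    tl k N (scomm X Y) = scomm X Y := by
  have : tl k N (scomm X Y) = scomm X Y - Matrix.diagonal fun _ => (N : k)⁻¹ •
    (scomm X Y).trace := rfl
  rw [this, trace_scomm, smul_zero]
  simp

omit [CharZero k] [NeZero N] in
theorem scomm_cbr (X : Matrix (Fin N) (Fin N) k) (M M' : Matrix (Fin N) (Fin N) A) :
    scomm X (cbr k M M') = cbr k (scomm X M) M' + cbr k M (scomm X M') := by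
  have h3 : ∀ M M' : Matrix (Fin N) (Fin N) A, cbr k M M' = tl k N (M * M' - M' * M) :=
    fun _ _ => rfl
  rw [h3, h3, h3, scomm_tl, ← tl_scomm, ← map_add]
  congr 1
  simp only [scomm_eq, map_sub, lm_mul, rm_mul, Matrix.sub_mul, Matrix.mul_sub, rl_mul]
  abel

omit [CharZero k] [IsScalarTower k A A] [SMulCommClass k A A] [NeZero N] in
theorem scomm_map (X : Matrix (Fin N) (Fin N) k) (δ : A →ₗ[k] A)
    (M : Matrix (Fin N) (Fin N) A) : scomm X (M.map δ) = (scomm X M).map δ := by
  ext i j
  simp only [scomm, Matrix.of_apply, Matrix.map_apply, map_sub, map_sum, map_smul]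

omit [CharZero k] [IsScalarTower k A A] [SMulCommClass k A A] [NeZero N] in
theorem tw_scomm (X : Matrix (Fin N) (Fin N) k) (M M' : Matrix (Fin N) (Fin N) A) :
    tw k (scomm X M) M' + tw k M (scomm X M') = 0 := by
  have e1 : tw k (lmL k A N X M) M' = tw k M (rmL k A N X M') := by
    simp only [tw, lmL_apply, rmL_apply, map_sum, LinearMap.sum_apply, map_smul,
      LinearMap.smul_apply]
    calc ∑ i, ∑ j, ∑ l, X i l • wedge k A (M l j) (M' j i)
        = ∑ i, ∑ l, ∑ j, X i l • wedge k A (M l j) (M' j i) :=
          Finset.sum_congr rfl fun i _ => Finset.sum_comm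
      _ = ∑ l, ∑ i, ∑ j, X i l • wedge k A (M l j) (M' j i) := Finset.sum_comm
      _ = ∑ l, ∑ j, ∑ i, X i l • wedge k A (M l j) (M' j i) :=
          Finset.sum_congr rfl fun i _ => Finset.sum_comm
  have e2 : tw k (rmL k A N X M) M' = tw k M (lmL k A N X M') := by
    simp only [tw, lmL_apply, rmL_apply, map_sum, LinearMap.sum_apply, map_smul,
      LinearMap.smul_apply]
    exact Finset.sum_congr rfl fun i _ => Finset.sum_comm
  rw [scomm_eq, scomm_eq]
  simp only [← twL_apply] at e1 e2 ⊢
  rw [map_sub, map_sub, LinearMap.sub_apply, e1, e2]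
  abel

theorem glAct_br (X : Matrix (Fin N) (Fin N) k) (x y : TLie T) :
    glAct T X (TLie.br T x y) = TLie.br T (glAct T X x) y + TLie.br T x (glAct T X y) := by
  apply TLie.ext
  · simp only [mat_glAct, TLie.mat_add, TLie.mat_br, b_glAct, map_zero]
    have h0 : ∀ M : Matrix (Fin N) (Fin N) A, M.map (0 : A →ₗ[k] A) = 0 := by
      intro M; ext i j; simp
    rw [h0, h0, ← scommL_apply X (cbr k x.mat y.mat + _ - _), map_sub, map_add, scommL_apply,
      scommL_apply, scommL_apply, scomm_cbr, scomm_map, scomm_map]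
    abel
  · simp only [b_glAct, TLie.b_add, TLie.b_br, mat_glAct, map_zero, LinearMap.zero_apply, add_zero]
    rw [← smul_add, tw_scomm, smul_zero]

end TL

end Pool.Agent.Y285.KM
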